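import Mathlib

/-!
# The p-free part of a factorial
-/

set_option autoImplicit false

namespace Pool.Agent.W_MP_97e2c3_nt

/-- product of the positive integers `≤ x` not divisible by `p` -/
def g (p : ℕ) : ℕ → ℕ
  | 0 => 1
  | x + 1 => if p ∣ x + 1 then g p x else (x + 1) * g p x

lemma g_zero (p : ℕ) : g p 0 = 1 := rfl

lemma g_succ_of_dvd {p x : ℕ} (h : p ∣ x + 1) : g p (x + 1) = g p x := by
  rw [g, if_pos h]

lemma g_succ_of_not_dvd {p x : ℕ} (h : ¬ p ∣ x + 1) : g p (x + 1) = (x + 1) * g p x := by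
  rw [g, if_neg h]

lemma factorial_eq (p : ℕ) (N : ℕ) :
    N.factorial = p ^ (N / p) * (N / p).factorial * g p N := by
  induction N with
  | zero => simp [g]
  | succ N ih =>
    by_cases h : p ∣ N + 1
    · have h1 : (N + 1) / p = N / p + 1 := Nat.succ_div_of_dvd h
      have h2 : p * (N / p + 1) = N + 1 := by rw [← h1]; exact Nat.mul_div_cancel' h
      rw [Nat.factorial_succ, ih, h1, g_succ_of_dvd h, Nat.factorial_succ, pow_succ]
      calc (N + 1) * (p ^ (N / p) * (N / p).factorial * g p N)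
          = (p * (N / p + 1)) * (p ^ (N / p) * (N / p).factorial * g p N) := by rw [h2]
        _ = _ := by ring
    · have h1 : (N + 1) / p = N / p := Nat.succ_div_of_not_dvd h
      rw [Nat.factorial_succ, ih, h1, g_succ_of_not_dvd h]
      ring

lemma g_coprime {p : ℕ} (hp : p.Prime) (x : ℕ) : Nat.Coprime (g p x) p := by
  induction x with
  | zero => simp [g]
  | succ x ih =>
    by_cases h : p ∣ x + 1
    · rw [g_succ_of_dvd h]; exact ih
    · rw [g_succ_of_not_dvd h]
      exact Nat.Coprime.mul_left ((Nat.Prime.coprime_iff_not_dvd hp).mpr h).symm ih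

/-- reflection modulo `n` -/
lemma g_reflect {p n : ℕ} (hpn : p ∣ n) (c : ℕ) : ∀ x, x + c + 1 = n →
    ((g p x : ℤ) * g p c) ≡ (-1) ^ (c - c / p) * g p (n - 1) [ZMOD n] := by
  induction c with
  | zero =>
    intro x hx
    have : n - 1 = x := by omega
    rw [this]
    simp [g]
  | succ c ih =>
    intro x hx
    have h1 := ih (x + 1) (by omega)
    have hiff : p ∣ x + 1 ↔ p ∣ c + 1 := by
      have h2 : x + 1 + (c + 1) = n := by omega
      constructor
      · intro h
        exact (Nat.dvd_add_right h).mp (h2 ▸ hpn)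
      · intro h
        exact (Nat.dvd_add_left h).mp (h2 ▸ hpn)
    by_cases h : p ∣ c + 1
    · rw [g_succ_of_dvd (hiff.mpr h)] at h1
      have h3 : (c + 1) / p = c / p + 1 := Nat.succ_div_of_dvd h
      have h4 : c + 1 - (c + 1) / p = c - c / p := by rw [h3]; omega
      rw [g_succ_of_dvd h, h4]
      exact h1
    · rw [g_succ_of_not_dvd (fun h' => h (hiff.mp h'))] at h1
      have h3 : (c + 1) / p = c / p := Nat.succ_div_of_not_dvd h
      have h4 : c + 1 - (c + 1) / p = (c - c / p) + 1 := by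
        rw [h3]
        have := Nat.div_le_self c p
        omega
      rw [g_succ_of_not_dvd h, h4, pow_succ]
      push_cast at h1 ⊢
      have h5 : ((x : ℤ) + 1) ≡ -(c + 1) [ZMOD n] := by
        rw [Int.modEq_iff_dvd]
        exact ⟨-1, by rw [← hx]; push_cast; ring⟩
      calc (g p x : ℤ) * ((c + 1) * g p c) = -((-(c + 1)) * g p x * g p c) := by ring
        _ ≡ -(((x : ℤ) + 1) * g p x * g p c) [ZMOD n] := by
            exact Int.ModEq.neg ((Int.ModEq.mul_right _ (Int.ModEq.mul_right _ h5.symm)))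
        _ ≡ -((-1) ^ (c - c / p) * g p (n - 1)) [ZMOD n] := Int.ModEq.neg h1
        _ = (-1) ^ (c - c / p) * -1 * g p (n - 1) := by ring

lemma g_odd (x : ℕ) : (g 2 x) % 2 = 1 := by
  have := g_coprime Nat.prime_two x
  exact Nat.odd_iff.mp (Nat.coprime_two_right.mp this)

/-- refined reflection for `p = 2`, modulo `2 * n` -/
lemma g_reflect_two {n : ℕ} (hpn : 2 ∣ n) (c : ℕ) : ∀ x, x + c + 1 = n →
    ((g 2 x : ℤ) * g 2 c) ≡ (-1) ^ (c - c / 2) * g 2 (n - 1) + n * ((c - c / 2 : ℕ) : ℤ)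
      [ZMOD (2 * n)] := by
  induction c with
  | zero =>
    intro x hx
    have : n - 1 = x := by omega
    rw [this]
    simp [g]
  | succ c ih =>
    intro x hx
    have h1 := ih (x + 1) (by omega)
    have hiff : 2 ∣ x + 1 ↔ 2 ∣ c + 1 := by omega
    by_cases h : 2 ∣ c + 1
    · rw [g_succ_of_dvd (hiff.mpr h)] at h1
      have h4 : c + 1 - (c + 1) / 2 = c - c / 2 := by omega
      rw [g_succ_of_dvd h, h4]
      exact h1
    · rw [g_succ_of_not_dvd (fun h' => h (hiff.mp h'))] at h1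
      have h4 : c + 1 - (c + 1) / 2 = (c - c / 2) + 1 := by omega
      rw [g_succ_of_not_dvd h, h4, pow_succ]
      push_cast at h1 ⊢
      obtain ⟨z, hz⟩ : ∃ z : ℤ, (g 2 x : ℤ) * g 2 c = 2 * z + 1 := by
        have h5 : (g 2 x * g 2 c) % 2 = 1 := by
          rw [Nat.mul_mod, g_odd, g_odd]
        refine ⟨((g 2 x * g 2 c / 2 : ℕ) : ℤ), ?_⟩
        have h6 := Nat.div_add_mod (g 2 x * g 2 c) 2
        rw [h5] at h6
        exact_mod_cast h6.symm
      rw [Int.modEq_iff_dvd] at h1 ⊢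
      obtain ⟨w, hw⟩ := h1
      have hn : (n : ℤ) = x + c + 2 := by rw [← hx]; push_cast; ring
      refine ⟨(c - c / 2 : ℕ) - z - w, ?_⟩
      have h7 : (g 2 x : ℤ) * ((c + 1) * g 2 c) =
          n * ((g 2 x : ℤ) * g 2 c) - (x + 1) * (g 2 x) * g 2 c := by rw [hn]; ring
      rw [h7, hz]
      have h8 : ((x : ℤ) + 1) * (g 2 x) * g 2 c =
          (-1) ^ (c - c / 2) * g 2 (n - 1) + n * ((c - c / 2 : ℕ) : ℤ) - 2 * n * w := by
        linear_combination -hw
      rw [h8]
      ring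

lemma g_add {p k : ℕ} (hk : 1 ≤ k) (q x : ℕ) :
    g p (p ^ k * q + x) ≡ g p (p ^ k * q) * g p x [MOD p ^ k] := by
  induction x with
  | zero => simp [g, Nat.ModEq.refl]
  | succ x ih =>
    have hdvd : p ∣ p ^ k * q := Dvd.dvd.mul_right (dvd_pow_self p (by omega)) q
    have hiff : p ∣ p ^ k * q + x + 1 ↔ p ∣ x + 1 := by
      rw [add_assoc]
      exact (Nat.dvd_add_right hdvd)
    rw [← add_assoc]
    by_cases h : p ∣ x + 1
    · rw [g_succ_of_dvd (hiff.mpr h), g_succ_of_dvd h]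
      exact ih
    · rw [g_succ_of_not_dvd (fun h' => h (hiff.mp h')), g_succ_of_not_dvd h]
      have h1 : p ^ k * q + x + 1 ≡ x + 1 [MOD p ^ k] := by
        rw [add_assoc]
        have : p ^ k * q + (x + 1) ≡ 0 + (x + 1) [MOD p ^ k] :=
          Nat.ModEq.add_right _ ((Nat.modEq_zero_iff_dvd).mpr ⟨q, rfl⟩)
        simpa using this
      calc (p ^ k * q + x + 1) * g p (p ^ k * q + x)
          ≡ (x + 1) * (g p (p ^ k * q) * g p x) [MOD p ^ k] := Nat.ModEq.mul h1 ih
        _ = g p (p ^ k * q) * ((x + 1) * g p x) := by ring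

lemma g_mul {p k : ℕ} (hk : 1 ≤ k) (q : ℕ) :
    g p (p ^ k * q) ≡ (g p (p ^ k)) ^ q [MOD p ^ k] := by
  induction q with
  | zero => simp [g, Nat.ModEq.refl]
  | succ q ih =>
    rw [Nat.mul_succ, pow_succ]
    exact (g_add hk q (p ^ k)).trans (Nat.ModEq.mul_right _ ih)

lemma g_mod {p k : ℕ} (hk : 1 ≤ k) (a : ℕ) :
    g p a ≡ (g p (p ^ k)) ^ (a / p ^ k) * g p (a % p ^ k) [MOD p ^ k] := by
  conv_lhs => rw [← Nat.div_add_mod a (p ^ k)]
  exact (g_add hk _ _).trans (Nat.ModEq.mul_right _ (g_mul hk _))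

/-- the symmetric product -/
def Y (p a b c : ℕ) : ℕ := g p a * g p b * g p c

lemma Y_coprime {p : ℕ} (hp : p.Prime) (a b c : ℕ) : Nat.Coprime (Y p a b c) p :=
  Nat.Coprime.mul_left (Nat.Coprime.mul_left (g_coprime hp a) (g_coprime hp b)) (g_coprime hp c)

lemma Y_swap (p a b c : ℕ) : Y p c b a = Y p a b c := by
  unfold Y; ring

lemma Y_lip {p : ℕ} (hp : 0 < p) {k a b c a' b' c' : ℕ} (hs : a + b + c = a' + b' + c')
    (ha : a ≡ a' [MOD p ^ k]) (hb : b ≡ b' [MOD p ^ k]) (hc : c ≡ c' [MOD p ^ k]) :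
    Y p a b c ≡ Y p a' b' c' [MOD p ^ k] := by
  rcases Nat.eq_zero_or_pos k with rfl | hk
  · simp [Nat.modEq_one]
  · have h1 : ∀ a b c : ℕ, Y p a b c ≡ (g p (p ^ k)) ^ (a / p ^ k + b / p ^ k + c / p ^ k) *
        Y p (a % p ^ k) (b % p ^ k) (c % p ^ k) [MOD p ^ k] := by
      intro a b c
      have h2 := Nat.ModEq.mul (Nat.ModEq.mul (g_mod (p := p) hk a) (g_mod (p := p) hk b))
        (g_mod (p := p) hk c)
      refine h2.trans ?_
      have : (g p (p ^ k)) ^ (a / p ^ k) * g p (a % p ^ k) *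
          ((g p (p ^ k)) ^ (b / p ^ k) * g p (b % p ^ k)) *
          ((g p (p ^ k)) ^ (c / p ^ k) * g p (c % p ^ k)) =
          (g p (p ^ k)) ^ (a / p ^ k + b / p ^ k + c / p ^ k) *
        Y p (a % p ^ k) (b % p ^ k) (c % p ^ k) := by
        unfold Y
        rw [pow_add, pow_add]
        ring
      rw [this]
    have h2 : a / p ^ k + b / p ^ k + c / p ^ k = a' / p ^ k + b' / p ^ k + c' / p ^ k := by
      have e1 := Nat.div_add_mod a (p ^ k)
      have e2 := Nat.div_add_mod b (p ^ k)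
      have e3 := Nat.div_add_mod c (p ^ k)
      have e4 := Nat.div_add_mod a' (p ^ k)
      have e5 := Nat.div_add_mod b' (p ^ k)
      have e6 := Nat.div_add_mod c' (p ^ k)
      have m1 : a % p ^ k = a' % p ^ k := ha
      have m2 : b % p ^ k = b' % p ^ k := hb
      have m3 : c % p ^ k = c' % p ^ k := hc
      have hpos : 0 < p ^ k := Nat.pow_pos hp
      apply Nat.eq_of_mul_eq_mul_left hpos
      rw [Nat.mul_add, Nat.mul_add, Nat.mul_add, Nat.mul_add]
      omega
    have m1 : a % p ^ k = a' % p ^ k := ha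
    have m2 : b % p ^ k = b' % p ^ k := hb
    have m3 : c % p ^ k = c' % p ^ k := hc
    refine (h1 a b c).trans ?_
    rw [h2, m1, m2, m3]
    exact (h1 a' b' c').symm

end Pool.Agent.W_MP_97e2c3_nt
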