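import Mathlib
import Pool.Agent.W_MP_97e2c3_nt.Basic

/-!
# The weights and the digit decomposition
-/

set_option autoImplicit false

namespace Pool.Agent.W_MP_97e2c3_nt

open Finset

/-- `(a+b+u)! / (a! b!)` -/
def W (u a b : ℕ) : ℕ := (a + b + u).factorial / (a.factorial * b.factorial)

lemma W_mul (u a b : ℕ) : W u a b * (a.factorial * b.factorial) = (a + b + u).factorial :=
  Nat.div_mul_cancel ((Nat.factorial_mul_factorial_dvd_factorial_add a b).trans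
    (Nat.factorial_dvd_factorial (Nat.le_add_right _ _)))

lemma W_zero (a b : ℕ) : W 0 a b = (a + b).choose a := by
  rw [W, add_zero, Nat.choose_eq_factorial_div_factorial (Nat.le_add_right a b)]
  simp

lemma div_digit {p a a₀ : ℕ} (ha : a₀ < p) : (p * a + a₀) / p = a := by
  rw [Nat.mul_add_div (by omega), Nat.div_eq_of_lt ha, add_zero]

/-- The recursion for the weights. -/
lemma W_rec {p : ℕ} (hp : 0 < p) {a b c a₀ b₀ c₀ u u' n' : ℕ} (ha : a₀ < p) (hb : b₀ < p)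
    (hc : c₀ < p) (hn' : a + b + c + u' + 1 = n')
    (hn : (p * a + a₀) + (p * b + b₀) + (p * c + c₀) + u + 1 = p * n') :
    W u (p * a + a₀) (p * b + b₀) * (g p (p * a + a₀) * g p (p * b + b₀)) =
      p ^ u' * W u' a b * g p ((p * a + a₀) + (p * b + b₀) + u) := by
  have h1 := W_mul u (p * a + a₀) (p * b + b₀)
  have h2 := W_mul u' a b
  have h3 := factorial_eq p ((p * a + a₀) + (p * b + b₀) + u)
  have h4 := factorial_eq p (p * a + a₀)
  have h5 := factorial_eq p (p * b + b₀)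
  have h6 : ((p * a + a₀) + (p * b + b₀) + u) / p = a + b + u' := by
    have : (p * a + a₀) + (p * b + b₀) + u = p * (a + b + u') + (p - 1 - c₀) := by
      subst hn'
      have e : p * (a + b + c + u' + 1) = p * (a + b + u') + p * c + p := by ring
      rw [e] at hn
      omega
    rw [this, div_digit (by omega)]
  rw [div_digit ha] at h4
  rw [div_digit hb] at h5
  rw [h6] at h3
  rw [h3, h4, h5, ← h2] at h1
  have hpos : 0 < p ^ (a + b) * (a.factorial * b.factorial) := by positivity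
  apply Nat.eq_of_mul_eq_mul_left hpos
  have e1 : p ^ (a + b) * (a.factorial * b.factorial) *
      (W u (p * a + a₀) (p * b + b₀) * (g p (p * a + a₀) * g p (p * b + b₀))) =
      W u (p * a + a₀) (p * b + b₀) * (p ^ a * a.factorial * g p (p * a + a₀) *
        (p ^ b * b.factorial * g p (p * b + b₀))) := by
    rw [pow_add]; ring
  have e2 : p ^ (a + b) * (a.factorial * b.factorial) *
      (p ^ u' * W u' a b * g p ((p * a + a₀) + (p * b + b₀) + u)) =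
      p ^ (a + b + u') * (W u' a b * (a.factorial * b.factorial)) *
        g p ((p * a + a₀) + (p * b + b₀) + u) := by
    rw [pow_add p (a + b) u']; ring
  rw [e1, e2]
  exact h1

/-- triples with `a + b + c + u + 1 = n` -/
def D (u n : ℕ) : Finset (ℕ × ℕ × ℕ) :=
  (range n ×ˢ range n ×ˢ range n).filter (fun t => t.1 + t.2.1 + t.2.2 + u + 1 = n)

lemma mem_D {u n : ℕ} {t : ℕ × ℕ × ℕ} : t ∈ D u n ↔ t.1 + t.2.1 + t.2.2 + u + 1 = n := by
  unfold D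
  simp only [mem_filter, mem_product, mem_range]
  constructor
  · exact fun h => h.2
  · intro h
    exact ⟨⟨by omega, by omega, by omega⟩, h⟩

/-- digit triples -/
def Dig (p u : ℕ) : Finset (ℕ × ℕ × ℕ) :=
  (range p ×ˢ range p ×ˢ range p).filter (fun d => p ∣ d.1 + d.2.1 + d.2.2 + u + 1)

lemma mem_Dig {p u : ℕ} {d : ℕ × ℕ × ℕ} : d ∈ Dig p u ↔
    (d.1 < p ∧ d.2.1 < p ∧ d.2.2 < p) ∧ p ∣ d.1 + d.2.1 + d.2.2 + u + 1 := by
  unfold Dig
  simp only [mem_filter, mem_product, mem_range]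

/-- the carry: `p * (carry + 1) = d₁ + d₂ + d₃ + u + 1` -/
def carry (p u : ℕ) (d : ℕ × ℕ × ℕ) : ℕ := (d.1 + d.2.1 + d.2.2 + u + 1) / p - 1

lemma carry_spec {p u : ℕ} (hp : 0 < p) {d : ℕ × ℕ × ℕ} (hd : d ∈ Dig p u) :
    p * (carry p u d + 1) = d.1 + d.2.1 + d.2.2 + u + 1 := by
  obtain ⟨k, hk⟩ := (mem_Dig.mp hd).2
  unfold carry
  rw [hk, Nat.mul_div_cancel_left k hp]
  have : k ≠ 0 := by
    rintro rfl
    simp at hk
  rw [Nat.sub_add_cancel (Nat.one_le_iff_ne_zero.mpr this)]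

/-- `p t + d` -/
def comb (p : ℕ) (t d : ℕ × ℕ × ℕ) : ℕ × ℕ × ℕ :=
  (p * t.1 + d.1, p * t.2.1 + d.2.1, p * t.2.2 + d.2.2)

lemma comb_mem {p u n' : ℕ} (hp : 0 < p) {d t : ℕ × ℕ × ℕ} (hd : d ∈ Dig p u)
    (ht : t ∈ D (carry p u d) n') : comb p t d ∈ D u (p * n') := by
  rw [mem_D] at ht ⊢
  have h := carry_spec hp hd
  simp only [comb]
  rw [← ht]
  have : p * (t.1 + t.2.1 + t.2.2 + carry p u d + 1) =
    p * t.1 + p * t.2.1 + p * t.2.2 + p * (carry p u d + 1) := by ring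
  rw [this, h]
  ring

/-- The digit decomposition of a sum over triples. -/
lemma sum_digits {p u n' : ℕ} (hp : 0 < p) (F : ℕ × ℕ × ℕ → ℤ) :
    ∑ t ∈ D u (p * n'), F t = ∑ d ∈ Dig p u, ∑ t ∈ D (carry p u d) n', F (comb p t d) := by
  rw [Finset.sum_sigma']
  symm
  refine Finset.sum_nbij' (fun x => comb p x.2 x.1)
    (fun t => ⟨(t.1 % p, t.2.1 % p, t.2.2 % p), (t.1 / p, t.2.1 / p, t.2.2 / p)⟩) ?_ ?_ ?_ ?_ ?_
  · rintro ⟨d, t⟩ h
    rw [mem_sigma] at h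
    exact comb_mem hp h.1 h.2
  · intro t ht
    rw [mem_D] at ht
    rw [mem_sigma]
    have e1 := Nat.div_add_mod t.1 p
    have e2 := Nat.div_add_mod t.2.1 p
    have e3 := Nat.div_add_mod t.2.2 p
    have hsum : p * (t.1 / p + t.2.1 / p + t.2.2 / p) + (t.1 % p + t.2.1 % p + t.2.2 % p + u + 1) =
        p * n' := by
      rw [← ht]
      conv_rhs => rw [← e1, ← e2, ← e3]
      ring
    have hdvd : p ∣ t.1 % p + t.2.1 % p + t.2.2 % p + u + 1 := by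
      rw [← Nat.dvd_add_right (Dvd.intro (t.1 / p + t.2.1 / p + t.2.2 / p) rfl), hsum]
      exact Dvd.intro n' rfl
    have hd : (t.1 % p, t.2.1 % p, t.2.2 % p) ∈ Dig p u := by
      rw [mem_Dig]
      exact ⟨⟨Nat.mod_lt _ hp, Nat.mod_lt _ hp, Nat.mod_lt _ hp⟩, hdvd⟩
    refine ⟨hd, ?_⟩
    rw [mem_D]
    have h := carry_spec hp hd
    simp only at h
    rw [← h] at hsum
    have h2 : p * (t.1 / p + t.2.1 / p + t.2.2 / p + carry p u (t.1 % p, t.2.1 % p, t.2.2 % p) + 1)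
      = p * n' := by rw [← hsum]; ring
    exact Nat.eq_of_mul_eq_mul_left hp h2
  · rintro ⟨⟨d1, d2, d3⟩, ⟨t1, t2, t3⟩⟩ h
    rw [mem_sigma, mem_Dig] at h
    obtain ⟨⟨⟨h1, h2, h3⟩, -⟩, -⟩ := h
    simp only at h1 h2 h3
    simp only [comb, Nat.mul_add_mod, Nat.mod_eq_of_lt h1, Nat.mod_eq_of_lt h2,
      Nat.mod_eq_of_lt h3, div_digit h1, div_digit h2, div_digit h3]
  · rintro ⟨t1, t2, t3⟩ ht
    simp only [comb, Nat.div_add_mod]
  · rintro ⟨d, t⟩ h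
    rfl

/-- the weight `(-1)^c W^m` -/
def om (m u : ℕ) (t : ℕ × ℕ × ℕ) : ℤ := (-1) ^ t.2.2 * (W u t.1 t.2.1 : ℤ) ^ m

/-- the symmetric unit factor -/
def Ph (p m N n : ℕ) (t : ℕ × ℕ × ℕ) : ℤ :=
  ((g p (n - 1) : ℤ) * (Y p t.1 t.2.1 t.2.2 : ℤ) ^ N) ^ m

/-- swap the first and the third coordinate -/
def tau (t : ℕ × ℕ × ℕ) : ℕ × ℕ × ℕ := (t.2.2, t.2.1, t.1)

@[simp] lemma tau_tau (t : ℕ × ℕ × ℕ) : tau (tau t) = t := rfl

lemma Ph_tau (p m N n : ℕ) (t : ℕ × ℕ × ℕ) : Ph p m N n (tau t) = Ph p m N n t := by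
  unfold Ph tau
  rw [Y_swap]

lemma tau_comb (p : ℕ) (t d : ℕ × ℕ × ℕ) : tau (comb p t d) = comb p (tau t) (tau d) := rfl

lemma tau_mem_D {u n : ℕ} {t : ℕ × ℕ × ℕ} (h : t ∈ D u n) : tau t ∈ D u n := by
  rw [mem_D] at *
  simp only [tau]
  omega

lemma tau_mem_Dig {p u : ℕ} {d : ℕ × ℕ × ℕ} (h : d ∈ Dig p u) : tau d ∈ Dig p u := by
  rw [mem_Dig] at *
  simp only [tau]
  refine ⟨⟨h.1.2.2, h.1.2.1, h.1.1⟩, ?_⟩
  have := h.2
  have e : d.2.2 + d.2.1 + d.1 + u + 1 = d.1 + d.2.1 + d.2.2 + u + 1 := by omega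
  rw [e]; exact this

lemma carry_tau (p u : ℕ) (d : ℕ × ℕ × ℕ) : carry p u (tau d) = carry p u d := by
  unfold carry tau
  have e : d.2.2 + d.2.1 + d.1 + u + 1 = d.1 + d.2.1 + d.2.2 + u + 1 := by omega
  simp only [e]

/-- Euler: `x^(φ(p^E)) ≡ 1`. -/
lemma pow_totient {p : ℕ} {x : ℕ} (hx : Nat.Coprime x p) (E : ℕ) :
    (x : ℤ) ^ (Nat.totient (p ^ E)) ≡ 1 [ZMOD ((p : ℤ) ^ E)] := by
  have h := Nat.ModEq.pow_totient (Nat.Coprime.pow_right E hx)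
  have := (Int.natCast_modEq_iff).mpr h
  push_cast at this
  exact this

/-- The weight recursion modulo `p^E`, `p^E ∣ n`. -/
lemma om_rec {p : ℕ} (hp : p.Prime) {m : ℕ} (hm : Odd m) {E N u n' : ℕ} (hE : p ^ E ∣ p * n')
    (hN : N + 1 = Nat.totient (p ^ E)) {d t : ℕ × ℕ × ℕ} (hd : d ∈ Dig p u)
    (ht : t ∈ D (carry p u d) n') :
    om m u (comb p t d) ≡ (p : ℤ) ^ (carry p u d * m) * om m (carry p u d) t *
      Ph p m N (p * n') (comb p t d) [ZMOD ((p : ℤ) ^ E)] := by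
  have hp0 := hp.pos
  have hdm := mem_Dig.mp hd
  obtain ⟨⟨h1, h2, h3⟩, -⟩ := hdm
  have hc := comb_mem hp0 hd ht
  have htD := mem_D.mp ht
  have hcD := mem_D.mp hc
  set u' := carry p u d with hu'
  have hW := W_rec hp0 (u := u) h1 h2 h3 htD hcD
  have hR := g_reflect (p := p) (n := p * n') (Dvd.intro n' rfl) (p * t.2.2 + d.2.2)
    ((p * t.1 + d.1) + (p * t.2.1 + d.2.1) + u) (by
      simp only [comb] at hcD; omega)
  have hfl : (p * t.2.2 + d.2.2) / p = t.2.2 := div_digit h3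
  rw [hfl] at hR
  -- abbreviations
  set A := g p (p * t.1 + d.1) with hA
  set B := g p (p * t.2.1 + d.2.1) with hB
  set C := g p (p * t.2.2 + d.2.2) with hC
  set X := g p ((p * t.1 + d.1) + (p * t.2.1 + d.2.1) + u) with hX
  set Wt := W u (p * t.1 + d.1) (p * t.2.1 + d.2.1) with hWt
  set Z := g p (p * n' - 1) with hZ
  have hYeq : Y p (p * t.1 + d.1) (p * t.2.1 + d.2.1) (p * t.2.2 + d.2.2) = A * B * C := rfl
  have hE' : ((p : ℤ) ^ E) ∣ ((p * n' : ℕ) : ℤ) := by exact_mod_cast hE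
  have hR' := hR.of_dvd hE'
  have hYc := pow_totient (Y_coprime hp (p * t.1 + d.1) (p * t.2.1 + d.2.1)
    (p * t.2.2 + d.2.2)) E
  rw [← hN, hYeq] at hYc
  push_cast at hYc
  have hW' : (Wt : ℤ) * (A * B) = (p : ℤ) ^ u' * W u' t.1 t.2.1 * X := by exact_mod_cast hW
  set s : ℕ := p * t.2.2 + d.2.2 - t.2.2 with hs
  -- Wt ≡ p^u' * W' * (-1)^s * Z * Y^N
  have key : (Wt : ℤ) ≡ (p : ℤ) ^ u' * W u' t.1 t.2.1 * ((-1) ^ s * (Z * (A * B * C) ^ N))
      [ZMOD ((p : ℤ) ^ E)] := by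
    calc (Wt : ℤ) = Wt * 1 := by ring
      _ ≡ Wt * ((A : ℤ) * B * C) ^ (N + 1) [ZMOD ((p : ℤ) ^ E)] := Int.ModEq.mul_left _ hYc.symm
      _ = (Wt * (A * B)) * C * (A * B * C) ^ N := by ring
      _ = ((p : ℤ) ^ u' * W u' t.1 t.2.1 * (A * B * C) ^ N) * (X * C) := by rw [hW']; ring
      _ ≡ ((p : ℤ) ^ u' * W u' t.1 t.2.1 * (A * B * C) ^ N) * ((-1) ^ s * Z)
          [ZMOD ((p : ℤ) ^ E)] := Int.ModEq.mul_left _ hR'
      _ = _ := by ring
  have hpow := Int.ModEq.pow m key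
  have hsgn : ((-1 : ℤ)) ^ (p * t.2.2 + d.2.2) * ((-1) ^ s) ^ m = (-1) ^ t.2.2 := by
    have hs1 : t.2.2 ≤ p * t.2.2 + d.2.2 := by nlinarith [hp.one_lt.le]
    obtain ⟨k, hk⟩ := hm
    have : p * t.2.2 + d.2.2 = t.2.2 + s := by omega
    rw [this, ← pow_mul, ← pow_add, hk]
    have e : t.2.2 + s + s * (2 * k + 1) = t.2.2 + 2 * (s * (k + 1)) := by ring
    rw [e, pow_add, pow_mul]
    simp
  unfold om Ph
  simp only [comb]
  rw [hYeq]
  push_cast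
  calc (-1 : ℤ) ^ (p * t.2.2 + d.2.2) * (Wt : ℤ) ^ m
      ≡ (-1 : ℤ) ^ (p * t.2.2 + d.2.2) * ((p : ℤ) ^ u' * W u' t.1 t.2.1 *
        ((-1) ^ s * (Z * (A * B * C) ^ N))) ^ m [ZMOD ((p : ℤ) ^ E)] := Int.ModEq.mul_left _ hpow
    _ = ((-1 : ℤ) ^ (p * t.2.2 + d.2.2) * ((-1) ^ s) ^ m) * ((p : ℤ) ^ (u' * m) *
        (W u' t.1 t.2.1 : ℤ) ^ m * (Z * (A * B * C) ^ N) ^ m) := by
        rw [mul_pow, mul_pow, mul_pow, ← pow_mul]; ring
    _ = _ := by rw [hsgn]; ring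

end Pool.Agent.W_MP_97e2c3_nt
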