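import Mathlib
import Pool.Agent.W_MP_97e2c3_nt.Digits

/-!
# The weights are symmetric against Lipschitz functions
-/

set_option autoImplicit false

namespace Pool.Agent.W_MP_97e2c3_nt

open Finset

/-- `h` maps congruence modulo `p^k` to congruence modulo `p^(k+j)` on the slice. -/
def Lip (p u n j : ℕ) (h : ℕ × ℕ × ℕ → ℤ) : Prop :=
  ∀ k, ∀ t ∈ D u n, ∀ t' ∈ D u n, t.1 ≡ t'.1 [MOD p ^ k] → t.2.1 ≡ t'.2.1 [MOD p ^ k] →
    t.2.2 ≡ t'.2.2 [MOD p ^ k] → (p : ℤ) ^ (k + j) ∣ h t - h t'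

/-- symmetry modulo `p^e` -/
def Symm (p m e : ℕ) : Prop :=
  ∀ u n : ℕ, ∀ h : ℕ × ℕ × ℕ → ℤ, p ^ e ∣ n → Lip p u n 0 h →
    (p : ℤ) ^ e ∣ ∑ t ∈ D u n, om m u t * (h t - h (tau t))

lemma Symm.lift {p m e : ℕ} (hp : 0 < p) (hS : Symm p m e) {u n j : ℕ} {h : ℕ × ℕ × ℕ → ℤ}
    (hn : p ^ e ∣ n) (hh : Lip p u n j h) :
    (p : ℤ) ^ (e + j) ∣ ∑ t ∈ D u n, om m u t * (h t - h (tau t)) := by
  rcases (D u n).eq_empty_or_nonempty with h0 | ⟨t₀, ht₀⟩
  · rw [h0]; simp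
  · have hdiv : ∀ t ∈ D u n, (p : ℤ) ^ j ∣ h t - h t₀ := by
      intro t ht
      have := hh 0 t ht t₀ ht₀ (by simp [Nat.modEq_one]) (by simp [Nat.modEq_one])
        (by simp [Nat.modEq_one])
      rwa [zero_add] at this
    set h' : ℕ × ℕ × ℕ → ℤ := fun t => (h t - h t₀) / (p : ℤ) ^ j with hh'
    have hpj : (p : ℤ) ^ j ≠ 0 := pow_ne_zero _ (by exact_mod_cast hp.ne')
    have hmul : ∀ t ∈ D u n, (p : ℤ) ^ j * h' t = h t - h t₀ := by
      intro t ht
      exact Int.mul_ediv_cancel' (hdiv t ht)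
    have hLip : Lip p u n 0 h' := by
      intro k t ht t' ht' h1 h2 h3
      have h4 := hh k t ht t' ht' h1 h2 h3
      have h5 : h t - h t' = (p : ℤ) ^ j * (h' t - h' t') := by
        rw [mul_sub, hmul t ht, hmul t' ht']; ring
      rw [h5, pow_add, mul_comm ((p : ℤ) ^ k)] at h4
      rw [add_zero]
      exact Int.dvd_of_mul_dvd_mul_left hpj h4
    have h6 := hS u n h' hn hLip
    have h7 : ∑ t ∈ D u n, om m u t * (h t - h (tau t)) =
        (p : ℤ) ^ j * ∑ t ∈ D u n, om m u t * (h' t - h' (tau t)) := by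
      rw [mul_sum]
      apply sum_congr rfl
      intro t ht
      have e1 := hmul t ht
      have e2 := hmul (tau t) (tau_mem_D ht)
      linear_combination (-om m u t) * e1 + om m u t * e2
    rw [h7, add_comm, pow_add]
    exact mul_dvd_mul_left _ h6

lemma Ph_lip {p : ℕ} (hp : 0 < p) (m N n' : ℕ) {u n k : ℕ} {t t' : ℕ × ℕ × ℕ} (ht : t ∈ D u n)
    (ht' : t' ∈ D u n) (h1 : t.1 ≡ t'.1 [MOD p ^ k]) (h2 : t.2.1 ≡ t'.2.1 [MOD p ^ k])
    (h3 : t.2.2 ≡ t'.2.2 [MOD p ^ k]) : (p : ℤ) ^ k ∣ Ph p m N n' t - Ph p m N n' t' := by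
  rw [mem_D] at ht ht'
  have hY := Y_lip hp (k := k) (by omega) h1 h2 h3
  have hY' : (Y p t.1 t.2.1 t.2.2 : ℤ) ≡ Y p t'.1 t'.2.1 t'.2.2 [ZMOD ((p : ℤ) ^ k)] := by
    have := (Int.natCast_modEq_iff).mpr hY
    push_cast at this
    exact this
  have h4 : Ph p m N n' t ≡ Ph p m N n' t' [ZMOD ((p : ℤ) ^ k)] := by
    unfold Ph
    exact Int.ModEq.pow m (Int.ModEq.mul_left _ (Int.ModEq.pow N hY'))
  exact (Int.modEq_iff_dvd.mp h4.symm)

lemma comb_modEq {p k a a' d : ℕ} (h : a ≡ a' [MOD p ^ k]) :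
    p * a + d ≡ p * a' + d [MOD p ^ (k + 1)] := by
  apply Nat.ModEq.add_right
  have := Nat.ModEq.mul_left' p h
  rwa [← pow_succ'] at this

/-- `H d t = Φ(p t + d) h(p t + d)` -/
def H (p m N n : ℕ) (h : ℕ × ℕ × ℕ → ℤ) (d t : ℕ × ℕ × ℕ) : ℤ :=
  Ph p m N n (comb p t d) * h (comb p t d)

lemma H_lip {p : ℕ} (hp : 0 < p) (m N : ℕ) {u n' : ℕ} {h : ℕ × ℕ × ℕ → ℤ}
    (hh : Lip p u (p * n') 0 h) {d : ℕ × ℕ × ℕ} (hd : d ∈ Dig p u) :
    Lip p (carry p u d) n' 1 (H p m N (p * n') h d) := by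
  intro k t ht t' ht' h1 h2 h3
  have c1 := comb_mem hp hd ht
  have c2 := comb_mem hp hd ht'
  have e1 := hh (k + 1) _ c1 _ c2 (comb_modEq h1) (comb_modEq h2) (comb_modEq h3)
  have e2 := Ph_lip hp m N (p * n') c1 c2 (k := k + 1) (comb_modEq h1) (comb_modEq h2)
    (comb_modEq h3)
  rw [add_zero] at e1
  have : H p m N (p * n') h d t - H p m N (p * n') h d t' =
      Ph p m N (p * n') (comb p t d) * (h (comb p t d) - h (comb p t' d)) +
      (Ph p m N (p * n') (comb p t d) - Ph p m N (p * n') (comb p t' d)) * h (comb p t' d) := by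
    unfold H; ring
  rw [this]
  exact dvd_add (Dvd.dvd.mul_left e1 _) (Dvd.dvd.mul_right e2 _)

/-- Reorganisation of the digit sum. -/
lemma sum_H {p : ℕ} (m N : ℕ) {u n' : ℕ} (h : ℕ × ℕ × ℕ → ℤ) :
    ∑ d ∈ Dig p u, ∑ t ∈ D (carry p u d) n',
      (p : ℤ) ^ (carry p u d * m) * om m (carry p u d) t * Ph p m N (p * n') (comb p t d) *
        (h (comb p t d) - h (tau (comb p t d))) =
    ∑ d ∈ Dig p u, (p : ℤ) ^ (carry p u d * m) * ∑ t ∈ D (carry p u d) n',
      om m (carry p u d) t * (H p m N (p * n') h d t - H p m N (p * n') h d (tau t)) := by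
  have h1 : ∀ d t, (p : ℤ) ^ (carry p u d * m) * om m (carry p u d) t *
      Ph p m N (p * n') (comb p t d) * (h (comb p t d) - h (tau (comb p t d))) =
      (p : ℤ) ^ (carry p u d * m) * om m (carry p u d) t * H p m N (p * n') h d t -
      (p : ℤ) ^ (carry p u (tau d) * m) * om m (carry p u (tau d)) t *
        H p m N (p * n') h (tau d) (tau t) := by
    intro d t
    rw [carry_tau]
    have : H p m N (p * n') h (tau d) (tau t) =
        Ph p m N (p * n') (comb p t d) * h (tau (comb p t d)) := by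
      unfold H
      rw [← tau_comb, Ph_tau]
    rw [this]
    unfold H
    ring
  simp_rw [h1, sum_sub_distrib]
  have h2 : ∑ d ∈ Dig p u, ∑ t ∈ D (carry p u d) n',
      (p : ℤ) ^ (carry p u (tau d) * m) * om m (carry p u (tau d)) t *
        H p m N (p * n') h (tau d) (tau t) =
      ∑ d ∈ Dig p u, ∑ t ∈ D (carry p u d) n',
        (p : ℤ) ^ (carry p u d * m) * om m (carry p u d) t * H p m N (p * n') h d (tau t) := by
    refine sum_nbij' tau tau (fun d hd => tau_mem_Dig hd) (fun d hd => tau_mem_Dig hd)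
      (fun d _ => tau_tau d) (fun d _ => tau_tau d) ?_
    intro d _
    rw [carry_tau]
  rw [h2, ← sum_sub_distrib]
  apply sum_congr rfl
  intro d _
  rw [← sum_sub_distrib, mul_sum]
  apply sum_congr rfl
  intro t _
  ring

theorem symm_all {p : ℕ} (hp : p.Prime) {m : ℕ} (hm : Odd m) (e : ℕ) : Symm p m e := by
  induction e with
  | zero =>
    intro u n h _ _
    simp
  | succ e ih =>
    intro u n h hn hh
    obtain ⟨w, hw⟩ := hn
    obtain ⟨n', rfl⟩ : ∃ n', n = p * n' := ⟨p ^ e * w, by rw [hw, pow_succ]; ring⟩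
    have hn' : p ^ e ∣ n' := by
      refine ⟨w, Nat.eq_of_mul_eq_mul_left hp.pos ?_⟩
      rw [hw, pow_succ]; ring
    obtain ⟨N, hN⟩ : ∃ N, N + 1 = Nat.totient (p ^ (e + 1)) :=
      ⟨Nat.totient (p ^ (e + 1)) - 1,
        Nat.sub_add_cancel (Nat.totient_pos.mpr (Nat.pow_pos hp.pos))⟩
    rw [sum_digits hp.pos]
    have hmod : ∑ d ∈ Dig p u, ∑ t ∈ D (carry p u d) n',
        om m u (comb p t d) * (h (comb p t d) - h (tau (comb p t d))) ≡
        ∑ d ∈ Dig p u, ∑ t ∈ D (carry p u d) n',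
        (p : ℤ) ^ (carry p u d * m) * om m (carry p u d) t * Ph p m N (p * n') (comb p t d) *
        (h (comb p t d) - h (tau (comb p t d))) [ZMOD ((p : ℤ) ^ (e + 1))] := by
      rw [Int.modEq_iff_dvd, ← sum_sub_distrib]
      apply dvd_sum
      intro d hd
      rw [← sum_sub_distrib]
      apply dvd_sum
      intro t ht
      have h1 := om_rec hp hm (E := e + 1) (by rw [pow_succ']; exact Nat.mul_dvd_mul_left p hn')
        hN hd ht
      rw [← sub_mul]
      exact Dvd.dvd.mul_right (Int.modEq_iff_dvd.mp h1) _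
    rw [sum_H] at hmod
    apply (Int.ModEq.dvd_iff hmod).mpr
    apply dvd_sum
    intro d hd
    apply Dvd.dvd.mul_left
    exact ih.lift hp.pos hn' (H_lip hp.pos m N hh hd)

end Pool.Agent.W_MP_97e2c3_nt
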