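import Mathlib
import Pool.Agent.W_MP_97e2c3_nt.Symm

/-!
# The refinement at the prime two
-/

set_option autoImplicit false

namespace Pool.Agent.W_MP_97e2c3_nt

open Finset

/-- parity: `2^(e+1) ∣ n * even`. -/
lemma two_pow_dvd {e : ℕ} {n x : ℤ} (hn : (2 : ℤ) ^ e ∣ n) (hx : 2 ∣ x) :
    (2 : ℤ) ^ (e + 1) ∣ n * x := by
  rw [pow_succ]
  exact mul_dvd_mul hn hx

lemma pow_add_modEq {e : ℕ} (he : 1 ≤ e) {n x y : ℤ} (hn : (2 : ℤ) ^ e ∣ n) (hx : x % 2 = 1)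
    {m : ℕ} (hm : Odd m) : (x + n * y) ^ m ≡ x ^ m + n * y [ZMOD ((2 : ℤ) ^ (e + 1))] := by
  obtain ⟨r, rfl⟩ := hm
  have h2n : (2 : ℤ) ∣ n := (dvd_pow_self (2 : ℤ) (by omega)).trans hn
  have h1 : (x + n * y) ^ 2 ≡ x ^ 2 [ZMOD ((2 : ℤ) ^ (e + 1))] := by
    rw [Int.modEq_iff_dvd]
    have : x ^ 2 - (x + n * y) ^ 2 = n * (-(2 * x * y) - n * y ^ 2) := by ring
    rw [this]
    apply two_pow_dvd hn
    apply dvd_sub
    · rw [dvd_neg]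
      exact ⟨x * y, by ring⟩
    · exact Dvd.dvd.mul_right h2n _
  have h3 := Int.ModEq.pow r h1
  have h4 : (x + n * y) ^ (2 * r + 1) ≡ (x ^ 2) ^ r * (x + n * y) [ZMOD ((2 : ℤ) ^ (e + 1))] := by
    have h5 : (x + n * y) ^ (2 * r + 1) = ((x + n * y) ^ 2) ^ r * (x + n * y) := by
      rw [← pow_mul]; ring
    rw [h5]
    exact Int.ModEq.mul_right _ h3
  refine h4.trans ?_
  rw [Int.modEq_iff_dvd]
  have : x ^ (2 * r + 1) + n * y - (x ^ 2) ^ r * (x + n * y) = n * (y * (1 - (x ^ 2) ^ r)) := by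
    rw [← pow_mul]; ring
  rw [this]
  apply two_pow_dvd hn
  apply Dvd.dvd.mul_left
  have h5 : ((x ^ 2) ^ r) % 2 = 1 := by
    rw [← pow_mul]
    exact Int.odd_iff.mp ((Int.odd_iff.mpr hx).pow)
  omega

/-- refined weight recursion modulo `2^(e+1)` where `2^e ∣ n = 2 n'`. -/
lemma om_rec_two {m : ℕ} (hm : Odd m) {e N u n' : ℕ} (he : 1 ≤ e) (hE : 2 ^ e ∣ 2 * n')
    (hN : N + 1 = Nat.totient (2 ^ (e + 1))) {d t : ℕ × ℕ × ℕ} (hd : d ∈ Dig 2 u)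
    (ht : t ∈ D (carry 2 u d) n') :
    om m u (comb 2 t d) ≡ (2 : ℤ) ^ (carry 2 u d * m) * (om m (carry 2 u d) t *
      Ph 2 m N (2 * n') (comb 2 t d) + (W (carry 2 u d) t.1 t.2.1 : ℤ) ^ m *
      (((2 * n' : ℕ) : ℤ) * ((2 * t.2.2 + d.2.2 - t.2.2 : ℕ) : ℤ)))
      [ZMOD ((2 : ℤ) ^ (e + 1))] := by
  have hdm := mem_Dig.mp hd
  obtain ⟨⟨h1, h2, h3⟩, -⟩ := hdm
  have hc := comb_mem (by norm_num) hd ht
  have htD := mem_D.mp ht
  have hcD := mem_D.mp hc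
  set u' := carry 2 u d with hu'
  have hW := W_rec (by norm_num) (u := u) h1 h2 h3 htD hcD
  have hR := g_reflect_two (n := 2 * n') (Dvd.intro n' rfl) (2 * t.2.2 + d.2.2)
    ((2 * t.1 + d.1) + (2 * t.2.1 + d.2.1) + u) (by
      simp only [comb] at hcD; omega)
  have hfl : (2 * t.2.2 + d.2.2) / 2 = t.2.2 := div_digit h3
  rw [hfl] at hR
  set A := g 2 (2 * t.1 + d.1) with hA
  set B := g 2 (2 * t.2.1 + d.2.1) with hB
  set C := g 2 (2 * t.2.2 + d.2.2) with hC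
  set X := g 2 ((2 * t.1 + d.1) + (2 * t.2.1 + d.2.1) + u) with hX
  set Wt := W u (2 * t.1 + d.1) (2 * t.2.1 + d.2.1) with hWt
  set Z := g 2 (2 * n' - 1) with hZ
  set s : ℕ := 2 * t.2.2 + d.2.2 - t.2.2 with hs
  set n : ℤ := ((2 * n' : ℕ) : ℤ) with hn
  have hYeq : Y 2 (2 * t.1 + d.1) (2 * t.2.1 + d.2.1) (2 * t.2.2 + d.2.2) = A * B * C := rfl
  have hE' : ((2 : ℤ) ^ e) ∣ n := by rw [hn]; exact_mod_cast hE
  have hR' : (X : ℤ) * C ≡ (-1) ^ s * Z + n * s [ZMOD ((2 : ℤ) ^ (e + 1))] := by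
    apply hR.of_dvd
    rw [pow_succ, mul_comm]
    exact mul_dvd_mul_left 2 hE'
  have hYc := pow_totient (Y_coprime Nat.prime_two (2 * t.1 + d.1) (2 * t.2.1 + d.2.1)
    (2 * t.2.2 + d.2.2)) (e + 1)
  rw [← hN, hYeq] at hYc
  push_cast at hYc
  have hW' : (Wt : ℤ) * (A * B) = (2 : ℤ) ^ u' * W u' t.1 t.2.1 * X := by exact_mod_cast hW
  have hodd : ∀ x : ℕ, ((g 2 x : ℤ)) % 2 = 1 := fun x => by exact_mod_cast g_odd x
  have hOA : Odd (A : ℤ) := Int.odd_iff.mpr (hodd _)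
  have hOB : Odd (B : ℤ) := Int.odd_iff.mpr (hodd _)
  have hOC : Odd (C : ℤ) := Int.odd_iff.mpr (hodd _)
  have hOZ : Odd (Z : ℤ) := Int.odd_iff.mpr (hodd _)
  have hOY : Odd (((A : ℤ) * B * C) ^ N) := ((hOA.mul hOB).mul hOC).pow
  have key : (Wt : ℤ) ≡ (2 : ℤ) ^ u' * W u' t.1 t.2.1 *
      ((-1) ^ s * (Z * (A * B * C) ^ N) + n * s) [ZMOD ((2 : ℤ) ^ (e + 1))] := by
    calc (Wt : ℤ) = Wt * 1 := by ring
      _ ≡ Wt * ((A : ℤ) * B * C) ^ (N + 1) [ZMOD ((2 : ℤ) ^ (e + 1))] :=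
          Int.ModEq.mul_left _ hYc.symm
      _ = (Wt * (A * B)) * C * (A * B * C) ^ N := by ring
      _ = ((2 : ℤ) ^ u' * W u' t.1 t.2.1 * (A * B * C) ^ N) * (X * C) := by rw [hW']; ring
      _ ≡ ((2 : ℤ) ^ u' * W u' t.1 t.2.1 * (A * B * C) ^ N) * ((-1) ^ s * Z + n * s)
          [ZMOD ((2 : ℤ) ^ (e + 1))] := Int.ModEq.mul_left _ hR'
      _ = (2 : ℤ) ^ u' * W u' t.1 t.2.1 *
          ((-1) ^ s * (Z * (A * B * C) ^ N) + n * (s * (A * B * C) ^ N)) := by ring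
      _ ≡ _ [ZMOD ((2 : ℤ) ^ (e + 1))] := by
          apply Int.ModEq.mul_left
          apply Int.ModEq.add_left
          rw [Int.modEq_iff_dvd, ← mul_sub]
          apply two_pow_dvd hE'
          have : (s : ℤ) - s * (A * B * C) ^ N = s * (1 - (A * B * C) ^ N) := by ring
          rw [this]
          apply Dvd.dvd.mul_left
          have := Int.odd_iff.mp hOY
          omega
  have hOx : ((-1 : ℤ) ^ s * (Z * (A * B * C) ^ N)) % 2 = 1 := by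
    apply Int.odd_iff.mp
    exact (Odd.pow (by decide)).mul (hOZ.mul hOY)
  have hpow := Int.ModEq.pow m key
  have hexp := pow_add_modEq he (y := (s : ℤ)) hE' hOx hm
  have hsgn : ((-1 : ℤ)) ^ (2 * t.2.2 + d.2.2) * ((-1) ^ s) ^ m = (-1) ^ t.2.2 := by
    have hs1 : t.2.2 ≤ 2 * t.2.2 + d.2.2 := by omega
    obtain ⟨k, hk⟩ := hm
    have : 2 * t.2.2 + d.2.2 = t.2.2 + s := by omega
    rw [this, ← pow_mul, ← pow_add, hk]
    have e : t.2.2 + s + s * (2 * k + 1) = t.2.2 + 2 * (s * (k + 1)) := by ring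
    rw [e, pow_add, pow_mul]
    simp
  unfold om Ph
  simp only [comb]
  rw [hYeq]
  push_cast
  calc (-1 : ℤ) ^ (2 * t.2.2 + d.2.2) * (Wt : ℤ) ^ m
      ≡ (-1 : ℤ) ^ (2 * t.2.2 + d.2.2) * ((2 : ℤ) ^ u' * W u' t.1 t.2.1 *
        ((-1) ^ s * (Z * (A * B * C) ^ N) + n * s)) ^ m [ZMOD ((2 : ℤ) ^ (e + 1))] :=
          Int.ModEq.mul_left _ hpow
    _ = ((-1 : ℤ) ^ (2 * t.2.2 + d.2.2) * ((2 : ℤ) ^ (u' * m) * (W u' t.1 t.2.1 : ℤ) ^ m)) *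
        ((-1) ^ s * (Z * (A * B * C) ^ N) + n * s) ^ m := by
        rw [mul_pow, mul_pow, ← pow_mul]; ring
    _ ≡ ((-1 : ℤ) ^ (2 * t.2.2 + d.2.2) * ((2 : ℤ) ^ (u' * m) * (W u' t.1 t.2.1 : ℤ) ^ m)) *
        (((-1) ^ s * (Z * (A * B * C) ^ N)) ^ m + n * s) [ZMOD ((2 : ℤ) ^ (e + 1))] :=
          Int.ModEq.mul_left _ hexp
    _ = ((2 : ℤ) ^ (u' * m) * (W u' t.1 t.2.1 : ℤ) ^ m) *
        (((-1 : ℤ) ^ (2 * t.2.2 + d.2.2) * ((-1) ^ s) ^ m) * (Z * (A * B * C) ^ N) ^ m +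
          (-1 : ℤ) ^ (2 * t.2.2 + d.2.2) * (n * s)) := by
        rw [mul_pow ((-1 : ℤ) ^ s)]; ring
    _ ≡ ((2 : ℤ) ^ (u' * m) * (W u' t.1 t.2.1 : ℤ) ^ m) *
        (((-1 : ℤ) ^ (2 * t.2.2 + d.2.2) * ((-1) ^ s) ^ m) * (Z * (A * B * C) ^ N) ^ m +
          n * s) [ZMOD ((2 : ℤ) ^ (e + 1))] := by
        apply Int.ModEq.mul_left
        apply Int.ModEq.add_left
        rw [Int.modEq_iff_dvd]
        have : n * (s : ℤ) - (-1 : ℤ) ^ (2 * t.2.2 + d.2.2) * (n * s) =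
          n * (s * (1 - (-1 : ℤ) ^ (2 * t.2.2 + d.2.2))) := by ring
        rw [this]
        apply two_pow_dvd hE'
        apply Dvd.dvd.mul_left
        have h9 : Odd ((-1 : ℤ) ^ (2 * t.2.2 + d.2.2)) := Odd.pow (by decide)
        have := Int.odd_iff.mp h9
        omega
    _ = _ := by rw [hsgn, hn]; push_cast; ring

end Pool.Agent.W_MP_97e2c3_nt
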