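import Mathlib
import Pool.Agent.W_MP_97e2c3_nt.Two

/-!
# The final assembly
-/

set_option autoImplicit false

namespace Pool.Agent.W_MP_97e2c3_nt

open Finset

/-- conversion of a sum over triples -/
lemma sum_D (n : ℕ) (F : ℕ × ℕ × ℕ → ℤ) :
    ∑ t ∈ D 0 n, F t = ∑ k ∈ range n, ∑ j ∈ range (k + 1), F (j, k - j, n - 1 - k) := by
  rw [Finset.sum_sigma']
  refine Finset.sum_nbij' (fun t => ⟨t.1 + t.2.1, t.1⟩)
    (fun x => (x.2, x.1 - x.2, n - 1 - x.1)) ?_ ?_ ?_ ?_ ?_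
  · intro t ht
    rw [mem_D] at ht
    simp only [mem_sigma, mem_range]
    omega
  · rintro ⟨k, j⟩ h
    simp only [mem_sigma, mem_range] at h
    rw [mem_D]
    simp only
    omega
  · rintro ⟨a, b, c⟩ ht
    rw [mem_D] at ht
    simp only at ht ⊢
    ext <;> simp only <;> omega
  · rintro ⟨k, j⟩ h
    simp only [mem_sigma, mem_range] at h
    simp only [Sigma.mk.injEq, heq_eq_eq, and_true]
    omega
  · rintro ⟨a, b, c⟩ ht
    rw [mem_D] at ht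
    simp only at ht ⊢
    congr 2
    · congr 1 <;> omega

lemma pow_mod_two {m : ℕ} (hm : Odd m) (x : ℤ) : x ^ m ≡ x [ZMOD 2] := by
  have h0 : m ≠ 0 := by rintro rfl; simp at hm
  rcases Int.emod_two_eq_zero_or_one x with h | h
  · have h1 : x ≡ 0 [ZMOD 2] := h
    calc x ^ m ≡ 0 ^ m [ZMOD 2] := h1.pow m
      _ = 0 := zero_pow h0
      _ ≡ x [ZMOD 2] := h1.symm
  · have h1 : x ≡ 1 [ZMOD 2] := h
    calc x ^ m ≡ 1 ^ m [ZMOD 2] := h1.pow m
      _ = 1 := one_pow _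
      _ ≡ x [ZMOD 2] := h1.symm

/-- The sum of the weights is odd. -/
lemma sum_W_odd {m : ℕ} (hm : Odd m) {n : ℕ} (hn : 0 < n) :
    (∑ t ∈ D 0 n, (W 0 t.1 t.2.1 : ℤ) ^ m) ≡ 1 [ZMOD 2] := by
  have h1 : (∑ t ∈ D 0 n, (W 0 t.1 t.2.1 : ℤ) ^ m) ≡ ∑ t ∈ D 0 n, (W 0 t.1 t.2.1 : ℤ)
      [ZMOD 2] := by
    rw [Int.modEq_iff_dvd, ← sum_sub_distrib]
    apply dvd_sum
    intro t _
    exact (pow_mod_two hm _).dvd
  refine h1.trans ?_
  rw [sum_D]
  have h2 : ∀ k ∈ range n, ∑ j ∈ range (k + 1), (W 0 j (k - j) : ℤ) = 2 ^ k := by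
    intro k _
    have h3 : ∀ j ∈ range (k + 1), (W 0 j (k - j) : ℤ) = (k.choose j : ℤ) := by
      intro j hj
      rw [mem_range] at hj
      rw [W_zero, Nat.add_sub_cancel' (by omega)]
    rw [sum_congr rfl h3]
    exact_mod_cast Nat.sum_range_choose k
  simp only
  rw [sum_congr rfl h2]
  obtain ⟨n', rfl⟩ : ∃ n', n = n' + 1 := ⟨n - 1, by omega⟩
  rw [sum_range_succ']
  simp only [pow_zero]
  have h4 : (2 : ℤ) ∣ ∑ k ∈ range n', 2 ^ (k + 1) := by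
    apply dvd_sum
    intro k _
    exact dvd_pow_self _ (by omega)
  rw [Int.modEq_iff_dvd]
  simpa using h4

/-- the functional `L (c - a)` -/
def LL (m n : ℕ) : ℤ := ∑ t ∈ D 0 n, om m 0 t * ((t.2.2 : ℤ) - t.1)

/-- the sum of the signed weights -/
def L1 (m n : ℕ) : ℤ := ∑ t ∈ D 0 n, om m 0 t

lemma L1_odd {m : ℕ} (hm : Odd m) {n : ℕ} (hn : 0 < n) : L1 m n ≡ 1 [ZMOD 2] := by
  refine Int.ModEq.trans ?_ (sum_W_odd hm hn)
  unfold L1 om
  rw [Int.modEq_iff_dvd, ← sum_sub_distrib]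
  apply dvd_sum
  intro t _
  have : (W 0 t.1 t.2.1 : ℤ) ^ m - (-1) ^ t.2.2 * (W 0 t.1 t.2.1 : ℤ) ^ m =
    (1 - (-1) ^ t.2.2) * (W 0 t.1 t.2.1 : ℤ) ^ m := by ring
  rw [this]
  apply Dvd.dvd.mul_right
  have h9 : Odd ((-1 : ℤ) ^ t.2.2) := Odd.pow (by decide)
  have := Int.odd_iff.mp h9
  omega

lemma LL_dvd {p : ℕ} (hp : p.Prime) {m : ℕ} (hm : Odd m) {e n : ℕ} (hn : p ^ e ∣ n) :
    (p : ℤ) ^ e ∣ LL m n := by
  have h1 := symm_all hp hm e 0 n (fun t => (t.2.2 : ℤ)) hn (by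
    intro k t ht t' ht' h1 h2 h3
    rw [add_zero]
    have := (Int.natCast_modEq_iff).mpr h3
    push_cast at this
    exact this.symm.dvd)
  exact h1

/-- The sum in question. -/
def S (m n : ℕ) : ℤ :=
  ∑ k ∈ range n, (-1 : ℤ) ^ k * (3 * k + 2) * ∑ j ∈ range (k + 1), ((k.choose j : ℕ) : ℤ) ^ m

lemma S_eq (m n : ℕ) : S m n = (-1) ^ (n - 1) * 2 * (n * L1 m n - LL m n) := by
  have h1 : S m n = ∑ t ∈ D 0 n, (-1 : ℤ) ^ (t.1 + t.2.1) * (3 * ((t.1 + t.2.1 : ℕ) : ℤ) + 2) *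
      (W 0 t.1 t.2.1 : ℤ) ^ m := by
    rw [sum_D]
    unfold S
    apply sum_congr rfl
    intro k hk
    rw [mul_sum]
    apply sum_congr rfl
    intro j hj
    rw [mem_range] at hj
    simp only
    rw [W_zero, Nat.add_sub_cancel' (by omega)]
  have h2 : ∑ t ∈ D 0 n, om m 0 t * ((t.2.2 : ℤ) - t.2.1) = LL m n := by
    unfold LL
    refine sum_nbij' (fun t => (t.2.1, t.1, t.2.2)) (fun t => (t.2.1, t.1, t.2.2)) ?_ ?_ ?_ ?_ ?_
    · intro t ht
      rw [mem_D] at *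
      simp only
      omega
    · intro t ht
      rw [mem_D] at *
      simp only
      omega
    · intro t _; rfl
    · intro t _; rfl
    · intro t _
      simp only [om]
      have : W 0 t.2.1 t.1 = W 0 t.1 t.2.1 := by
        unfold W
        rw [Nat.add_comm t.2.1 t.1, Nat.mul_comm]
      rw [this]
  have h3 : S m n = (-1) ^ (n - 1) * (2 * n * L1 m n - LL m n -
      ∑ t ∈ D 0 n, om m 0 t * ((t.2.2 : ℤ) - t.2.1)) := by
    rw [h1]
    unfold L1 LL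
    rw [mul_sum, ← sum_sub_distrib, ← sum_sub_distrib, mul_sum]
    apply sum_congr rfl
    intro t ht
    rw [mem_D] at ht
    unfold om
    have h4 : (-1 : ℤ) ^ (t.1 + t.2.1) = (-1) ^ (n - 1) * (-1) ^ t.2.2 := by
      have : n - 1 = t.1 + t.2.1 + t.2.2 := by omega
      rw [this, ← pow_add, show t.1 + t.2.1 + t.2.2 + t.2.2 = t.1 + t.2.1 + 2 * t.2.2 by ring,
        pow_add _ (t.1 + t.2.1), pow_mul]
      simp
    have h5 : (n : ℤ) = t.1 + t.2.1 + t.2.2 + 1 := by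
      rw [← ht]; push_cast; ring
    rw [h4, h5]
    push_cast
    ring
  rw [h3, h2]
  ring

/-- `x ^ M - x` is `(k+2)`-Lipschitz on odd integers. -/
lemma psi_lip {M : ℕ} (hM : Odd M) {x y : ℤ} (hx : x % 2 = 1) (hy : y % 2 = 1) {k : ℕ}
    (hxy : (2 : ℤ) ^ (k + 1) ∣ x - y) : (2 : ℤ) ^ (k + 2) ∣ (x ^ M - x) - (y ^ M - y) := by
  obtain ⟨r, rfl⟩ := hM
  induction r with
  | zero => simp
  | succ r ih =>
    have e1 : (x ^ (2 * (r + 1) + 1) - x) - (y ^ (2 * (r + 1) + 1) - y) =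
        x ^ 2 * ((x ^ (2 * r + 1) - x) - (y ^ (2 * r + 1) - y)) +
        (x - y) * ((x + y) * (y ^ (2 * r + 1) - y) + (x ^ 2 + x * y + y ^ 2 - 1)) := by ring
    rw [e1]
    apply dvd_add
    · exact Dvd.dvd.mul_left ih _
    · have h2 : (2 : ℤ) ∣ (x + y) * (y ^ (2 * r + 1) - y) + (x ^ 2 + x * y + y ^ 2 - 1) := by
        apply dvd_add
        · apply Dvd.dvd.mul_right
          omega
        · obtain ⟨a, ha⟩ : ∃ a, x = 2 * a + 1 := ⟨x / 2, by omega⟩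
          obtain ⟨b, hb⟩ : ∃ b, y = 2 * b + 1 := ⟨y / 2, by omega⟩
          rw [ha, hb]
          exact ⟨2 * a ^ 2 + 2 * b ^ 2 + 2 * a * b + 3 * a + 3 * b + 1, by ring⟩
      have := mul_dvd_mul hxy h2
      rwa [← pow_succ] at this

lemma psi_even {M : ℕ} {x : ℤ} (hx : x % 2 = 1) : (2 : ℤ) ∣ x ^ M - x := by
  have h1 : Odd (x ^ M) := (Int.odd_iff.mpr hx).pow
  have := Int.odd_iff.mp h1
  omega

/-- the function `γ (α^M + β^M + γ^M) + γ^M` with `α = 2a+1` etc. -/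
def hK (M : ℕ) (t : ℕ × ℕ × ℕ) : ℤ :=
  (2 * t.2.2 + 1) * ((2 * t.1 + 1) ^ M + (2 * t.2.1 + 1) ^ M + (2 * t.2.2 + 1) ^ M) +
    (2 * t.2.2 + 1) ^ M

lemma hK_lip {M : ℕ} (hM : Odd M) (n' : ℕ) : Lip 2 0 n' 2 (hK M) := by
  intro k t ht t' ht' h1 h2 h3
  have key : ∀ a b : ℕ, a ≡ b [MOD 2 ^ k] → (2 : ℤ) ^ (k + 1) ∣ (2 * a + 1) - (2 * b + 1) := by
    intro a b h
    have h4 := ((Int.natCast_modEq_iff).mpr h).symm.dvd
    push_cast at h4
    have : (2 * (a : ℤ) + 1) - (2 * b + 1) = (a - b) * 2 := by ring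
    rw [this, pow_succ]
    exact mul_dvd_mul h4 (dvd_refl 2)
  have hodd : ∀ a : ℕ, (2 * (a : ℤ) + 1) % 2 = 1 := fun a => by omega
  rw [mem_D] at ht ht'
  set α : ℤ := 2 * t.1 + 1 with hα
  set β : ℤ := 2 * t.2.1 + 1 with hβ
  set γ : ℤ := 2 * t.2.2 + 1 with hγ
  set α' : ℤ := 2 * t'.1 + 1 with hα'
  set β' : ℤ := 2 * t'.2.1 + 1 with hβ'
  set γ' : ℤ := 2 * t'.2.2 + 1 with hγ'
  have s1 : α + β + γ = 2 * n' + 1 := by
    rw [← ht, hα, hβ, hγ]; push_cast; ring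
  have s2 : α' + β' + γ' = 2 * n' + 1 := by
    rw [← ht', hα', hβ', hγ']; push_cast; ring
  have p1 := psi_lip hM (hodd t.1) (hodd t'.1) (key _ _ h1)
  have p2 := psi_lip hM (hodd t.2.1) (hodd t'.2.1) (key _ _ h2)
  have p3 := psi_lip hM (hodd t.2.2) (hodd t'.2.2) (key _ _ h3)
  have q1 := psi_even (M := M) (hodd t'.1)
  have q2 := psi_even (M := M) (hodd t'.2.1)
  have q3 := psi_even (M := M) (hodd t'.2.2)
  have kγ := key _ _ h3
  rw [← hα, ← hα'] at p1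
  rw [← hβ, ← hβ'] at p2
  rw [← hγ, ← hγ'] at p3 kγ
  rw [← hα'] at q1
  rw [← hβ'] at q2
  rw [← hγ'] at q3
  have e1 : hK M t - hK M t' = (γ - γ') * (2 * (n' + 1)) +
      γ * (((α ^ M - α) - (α' ^ M - α')) + ((β ^ M - β) - (β' ^ M - β')) +
        ((γ ^ M - γ) - (γ' ^ M - γ'))) +
      (γ - γ') * ((α' ^ M - α') + (β' ^ M - β') + (γ' ^ M - γ')) +
      ((γ ^ M - γ) - (γ' ^ M - γ')) := by
    have e2 : hK M t = γ * (α ^ M + β ^ M + γ ^ M) + γ ^ M := rfl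
    have e3 : hK M t' = γ' * (α' ^ M + β' ^ M + γ' ^ M) + γ' ^ M := rfl
    rw [e2, e3]
    linear_combination γ * s1 - γ' * s2
  rw [e1]
  have d1 : (2 : ℤ) ^ (k + 2) ∣ (γ - γ') * (2 * (n' + 1)) := by
    have := mul_dvd_mul kγ (Dvd.intro ((n' : ℤ) + 1) rfl : (2 : ℤ) ∣ 2 * (n' + 1))
    rwa [← pow_succ] at this
  have d2 : (2 : ℤ) ^ (k + 2) ∣ (γ - γ') * ((α' ^ M - α') + (β' ^ M - β') + (γ' ^ M - γ')) := by
    have := mul_dvd_mul kγ (dvd_add (dvd_add q1 q2) q3)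
    rwa [← pow_succ] at this
  exact dvd_add (dvd_add (dvd_add d1 (Dvd.dvd.mul_left (dvd_add (dvd_add p1 p2) p3) _)) d2) p3

/-- product of Lipschitz functions -/
lemma prod_lip {n' : ℕ} {f h : ℕ × ℕ × ℕ → ℤ}
    (hf : Lip 2 0 n' 1 f) (hh : Lip 2 0 n' 2 h) {t₀ : ℕ × ℕ × ℕ} (ht₀ : t₀ ∈ D 0 n') :
    Lip 2 0 n' 2 (fun t => f t * (h t - h t₀)) := by
  intro k t ht t' ht' h1 h2 h3
  have e1 := hf k t ht t' ht' h1 h2 h3
  have e2 := hh k t ht t' ht' h1 h2 h3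
  have e3 := hh 0 t' ht' t₀ ht₀ (by simp [Nat.modEq_one]) (by simp [Nat.modEq_one])
    (by simp [Nat.modEq_one])
  have e4 : f t * (h t - h t₀) - f t' * (h t' - h t₀) =
      f t * (h t - h t') + (f t - f t') * (h t' - h t₀) := by ring
  simp only
  rw [e4]
  apply dvd_add
  · exact Dvd.dvd.mul_left e2 _
  · have e5 := mul_dvd_mul e1 e3
    refine dvd_trans ?_ e5
    rw [← pow_add]
    exact pow_dvd_pow _ (by omega)

lemma Dig_two : Dig 2 0 = {(1, 0, 0), (0, 1, 0), (0, 0, 1), (1, 1, 1)} := by decide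

/-- The refined statement at the prime two. -/
lemma LL_two {m : ℕ} (hm : Odd m) {e n : ℕ} (he : 1 ≤ e) (hn0 : 0 < n) (hn : 2 ^ e ∣ n) :
    LL m n ≡ n [ZMOD ((2 : ℤ) ^ (e + 1))] := by
  obtain ⟨n', rfl⟩ : ∃ n', n = 2 * n' := (dvd_pow_self 2 (by omega)).trans hn
  have hn' : 0 < n' := by omega
  obtain ⟨e', rfl⟩ : ∃ e', e = e' + 1 := ⟨e - 1, by omega⟩
  have hdvd' : 2 ^ e' ∣ n' := by
    rw [pow_succ'] at hn
    exact Nat.dvd_of_mul_dvd_mul_left (by norm_num) hn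
  obtain ⟨N, hN⟩ : ∃ N, N + 1 = Nat.totient (2 ^ (e' + 1 + 1)) :=
    ⟨Nat.totient (2 ^ (e' + 1 + 1)) - 1,
      Nat.sub_add_cancel (Nat.totient_pos.mpr (Nat.pow_pos (by norm_num)))⟩
  have hNodd : Odd N := by
    rw [Nat.totient_prime_pow_succ Nat.prime_two, pow_succ'] at hN
    rw [Nat.odd_iff]
    omega
  set M := N * m with hMdef
  have hM : Odd M := hNodd.mul hm
  -- decomposition
  have hdec : LL m (2 * n') ≡
      (∑ d ∈ Dig 2 0, ∑ t ∈ D (carry 2 0 d) n',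
        (2 : ℤ) ^ (carry 2 0 d * m) * om m (carry 2 0 d) t * Ph 2 m N (2 * n') (comb 2 t d) *
        (((comb 2 t d).2.2 : ℤ) - (tau (comb 2 t d)).2.2)) +
      ((2 * n' : ℕ) : ℤ) * ∑ d ∈ Dig 2 0, ∑ t ∈ D (carry 2 0 d) n',
        (2 : ℤ) ^ (carry 2 0 d * m) * (W (carry 2 0 d) t.1 t.2.1 : ℤ) ^ m *
        (((2 * t.2.2 + d.2.2 - t.2.2 : ℕ) : ℤ) *
        (((comb 2 t d).2.2 : ℤ) - (tau (comb 2 t d)).2.2))
      [ZMOD ((2 : ℤ) ^ (e' + 1 + 1))] := by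
    unfold LL
    rw [sum_digits (by norm_num), mul_sum, ← sum_add_distrib, Int.modEq_iff_dvd,
      ← sum_sub_distrib]
    apply dvd_sum
    intro d hd
    rw [mul_sum, ← sum_add_distrib, ← sum_sub_distrib]
    apply dvd_sum
    intro t ht
    have h1 := (om_rec_two hm he hn hN hd ht).dvd
    have h2 : (tau (comb 2 t d)).2.2 = (comb 2 t d).1 := rfl
    rw [h2]
    have h3 := Dvd.dvd.mul_right h1 (((comb 2 t d).2.2 : ℤ) - (comb 2 t d).1)
    refine h3.trans (dvd_of_eq ?_)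
    ring
  have hsumH := sum_H (p := 2) (u := 0) (n' := n') m N (fun t => (t.2.2 : ℤ))
  simp only [Nat.cast_ofNat] at hsumH
  rw [hsumH] at hdec
  refine hdec.trans ?_
  have hlipc : Lip 2 0 (2 * n') 0 (fun t => (t.2.2 : ℤ)) := by
    intro k t ht t' ht' h1 h2 h3
    rw [add_zero]
    have := (Int.natCast_modEq_iff).mpr h3
    push_cast at this
    exact this.symm.dvd
  -- carries
  have c1 : carry 2 0 (1, 0, 0) = 0 := rfl
  have c2 : carry 2 0 (0, 1, 0) = 0 := rfl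
  have c3 : carry 2 0 (0, 0, 1) = 0 := rfl
  have c4 : carry 2 0 (1, 1, 1) = 1 := rfl
  -- first part
  have hfirst : (2 : ℤ) ^ (e' + 1 + 1) ∣ ∑ d ∈ Dig 2 0, (2 : ℤ) ^ (carry 2 0 d * m) *
      ∑ t ∈ D (carry 2 0 d) n', om m (carry 2 0 d) t *
        (H 2 m N (2 * n') (fun t => (t.2.2 : ℤ)) d t -
          H 2 m N (2 * n') (fun t => (t.2.2 : ℤ)) d (tau t)) := by
    have h4 := (symm_all Nat.prime_two hm e').lift (by norm_num) hdvd'
      (H_lip (by norm_num) m N hlipc (d := (1, 1, 1)) (by rw [Dig_two]; simp))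
    rw [c4] at h4
    simp only [Nat.cast_ofNat] at h4
    -- the auxiliary function
    set f : ℕ × ℕ × ℕ → ℤ := fun t => Ph 2 m N (2 * n') (comb 2 t (0, 0, 0)) with hf
    have hflip : Lip 2 0 n' 1 f := by
      intro k t ht t' ht' h1 h2 h3
      have m1 : comb 2 t (0, 0, 0) ∈ D 1 (2 * n') := by
        rw [mem_D] at *
        simp only [comb]
        omega
      have m2 : comb 2 t' (0, 0, 0) ∈ D 1 (2 * n') := by
        rw [mem_D] at *
        simp only [comb]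
        omega
      exact Ph_lip (p := 2) (by norm_num) m N (2 * n') m1 m2 (k := k + 1) (comb_modEq h1)
        (comb_modEq h2) (comb_modEq h3)
    obtain ⟨t₀, ht₀⟩ : ∃ t₀, t₀ ∈ D 0 n' := ⟨(0, 0, n' - 1), by rw [mem_D]; simp; omega⟩
    have h5 := (symm_all Nat.prime_two hm e').lift (by norm_num) hdvd'
      (prod_lip hflip (hK_lip hM n') ht₀)
    have hY1 : ∀ a b c : ℕ, Y 2 (2 * a + 1) (2 * b) (2 * c) = (2 * a + 1) * Y 2 (2 * a) (2 * b) (2 * c) := by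
      intro a b c
      unfold Y
      rw [g_succ_of_not_dvd (by omega)]
      ring
    have hY2 : ∀ a b c : ℕ, Y 2 (2 * a) (2 * b + 1) (2 * c) = (2 * b + 1) * Y 2 (2 * a) (2 * b) (2 * c) := by
      intro a b c
      unfold Y
      rw [g_succ_of_not_dvd (by omega)]
      ring
    have hY3 : ∀ a b c : ℕ, Y 2 (2 * a) (2 * b) (2 * c + 1) = (2 * c + 1) * Y 2 (2 * a) (2 * b) (2 * c) := by
      intro a b c
      unfold Y
      rw [g_succ_of_not_dvd (by omega)]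
      ring
    have hH1 : ∀ t, H 2 m N (2 * n') (fun t => (t.2.2 : ℤ)) (1, 0, 0) t =
        f t * (2 * t.1 + 1) ^ M * (2 * t.2.2) := by
      intro t
      simp only [H, hf, Ph, comb, add_zero, hY1]
      rw [hMdef]
      push_cast
      rw [mul_pow, mul_pow, mul_pow, mul_pow, ← pow_mul, ← pow_mul]
      ring
    have hH2 : ∀ t, H 2 m N (2 * n') (fun t => (t.2.2 : ℤ)) (0, 1, 0) t =
        f t * (2 * t.2.1 + 1) ^ M * (2 * t.2.2) := by
      intro t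
      simp only [H, hf, Ph, comb, add_zero, hY2]
      rw [hMdef]
      push_cast
      rw [mul_pow, mul_pow, mul_pow, mul_pow, ← pow_mul, ← pow_mul]
      ring
    have hH3 : ∀ t, H 2 m N (2 * n') (fun t => (t.2.2 : ℤ)) (0, 0, 1) t =
        f t * (2 * t.2.2 + 1) ^ M * (2 * t.2.2 + 1) := by
      intro t
      simp only [H, hf, Ph, comb, add_zero, hY3]
      rw [hMdef]
      push_cast
      rw [mul_pow, mul_pow, mul_pow, mul_pow, ← pow_mul, ← pow_mul]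
      ring
    have hftau : ∀ t, f (tau t) = f t := by
      intro t
      simp only [hf]
      rw [← Ph_tau 2 m N (2 * n') (comb 2 t (0, 0, 0)), tau_comb]
      rfl
    rw [Dig_two, sum_insert (by decide), sum_insert (by decide), sum_insert (by decide),
      sum_singleton, c1, c2, c3, c4]
    simp only [zero_mul, pow_zero, one_mul]
    rw [← add_assoc, ← add_assoc, ← sum_add_distrib, ← sum_add_distrib]
    apply dvd_add
    · have h6 : ∑ t ∈ D 0 n', om m 0 t * (f t * (hK M t - hK M t₀) -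
          f (tau t) * (hK M (tau t) - hK M t₀)) =
          ∑ t ∈ D 0 n', (om m 0 t * (H 2 m N (2 * n') (fun t => (t.2.2 : ℤ)) (1, 0, 0) t -
            H 2 m N (2 * n') (fun t => (t.2.2 : ℤ)) (1, 0, 0) (tau t)) +
          om m 0 t * (H 2 m N (2 * n') (fun t => (t.2.2 : ℤ)) (0, 1, 0) t -
            H 2 m N (2 * n') (fun t => (t.2.2 : ℤ)) (0, 1, 0) (tau t)) +
          om m 0 t * (H 2 m N (2 * n') (fun t => (t.2.2 : ℤ)) (0, 0, 1) t -
            H 2 m N (2 * n') (fun t => (t.2.2 : ℤ)) (0, 0, 1) (tau t))) := by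
        apply sum_congr rfl
        intro t _
        rw [hH1, hH1, hH2, hH2, hH3, hH3, hftau]
        unfold hK tau
        simp only
        ring
      rw [← h6]
      exact h5
    · have hm1 : 1 ≤ m := by
        rcases Nat.eq_zero_or_pos m with rfl | h
        · simp at hm
        · exact h
      have h7 : (2 : ℤ) ∣ 2 ^ m := dvd_pow_self _ (by omega)
      have h8 := mul_dvd_mul h7 h4
      rw [← pow_succ'] at h8
      exact h8
  -- second part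
  have hsecond : (∑ d ∈ Dig 2 0, ∑ t ∈ D (carry 2 0 d) n',
        (2 : ℤ) ^ (carry 2 0 d * m) * (W (carry 2 0 d) t.1 t.2.1 : ℤ) ^ m *
        (((2 * t.2.2 + d.2.2 - t.2.2 : ℕ) : ℤ) *
        (((comb 2 t d).2.2 : ℤ) - (tau (comb 2 t d)).2.2))) ≡ 1 [ZMOD 2] := by
    refine Int.ModEq.trans ?_ (sum_W_odd hm hn')
    rw [Dig_two, sum_insert (by decide), sum_insert (by decide), sum_insert (by decide),
      sum_singleton, c1, c2, c3, c4]
    simp only [zero_mul, pow_zero, one_mul]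
    rw [← add_assoc, ← add_assoc, ← sum_add_distrib, ← sum_add_distrib]
    have hm1 : 1 ≤ m := by
      rcases Nat.eq_zero_or_pos m with rfl | h
      · simp at hm
      · exact h
    have h7 : (2 : ℤ) ∣ ∑ t ∈ D 1 n', (2 : ℤ) ^ m * (W 1 t.1 t.2.1 : ℤ) ^ m *
        (((2 * t.2.2 + 1 - t.2.2 : ℕ) : ℤ) *
        (((comb 2 t (1, 1, 1)).2.2 : ℤ) - (tau (comb 2 t (1, 1, 1))).2.2)) := by
      apply dvd_sum
      intro t _
      rw [mul_assoc]
      exact Dvd.dvd.mul_right (dvd_pow_self _ (by omega)) _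
    have h8 : ∑ t ∈ D 0 n', ((W 0 t.1 t.2.1 : ℤ) ^ m *
        (((2 * t.2.2 + 0 - t.2.2 : ℕ) : ℤ) *
        (((comb 2 t (1, 0, 0)).2.2 : ℤ) - (tau (comb 2 t (1, 0, 0))).2.2)) +
        (W 0 t.1 t.2.1 : ℤ) ^ m *
        (((2 * t.2.2 + 0 - t.2.2 : ℕ) : ℤ) *
        (((comb 2 t (0, 1, 0)).2.2 : ℤ) - (tau (comb 2 t (0, 1, 0))).2.2)) +
        (W 0 t.1 t.2.1 : ℤ) ^ m *
        (((2 * t.2.2 + 1 - t.2.2 : ℕ) : ℤ) *
        (((comb 2 t (0, 0, 1)).2.2 : ℤ) - (tau (comb 2 t (0, 0, 1))).2.2))) ≡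
        ∑ t ∈ D 0 n', (W 0 t.1 t.2.1 : ℤ) ^ m [ZMOD 2] := by
      rw [Int.modEq_iff_dvd, ← sum_sub_distrib]
      apply dvd_sum
      intro t _
      have e1 : ((2 * t.2.2 + 0 - t.2.2 : ℕ) : ℤ) = t.2.2 := by
        have : 2 * t.2.2 + 0 - t.2.2 = t.2.2 := by omega
        rw [this]
      have e2 : ((2 * t.2.2 + 1 - t.2.2 : ℕ) : ℤ) = t.2.2 + 1 := by
        have : 2 * t.2.2 + 1 - t.2.2 = t.2.2 + 1 := by omega
        rw [this]; push_cast; ring
      rw [e1, e2]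
      simp only [comb, tau]
      push_cast
      refine ⟨(W 0 t.1 t.2.1 : ℤ) ^ m * (-(3 * t.2.2 * (t.2.2 - t.1)) - (t.2.2 - t.1)), ?_⟩
      ring
    have h9 := h8.add (Int.modEq_zero_iff_dvd.mpr h7)
    rw [add_zero] at h9
    exact h9
  -- conclusion
  have h10 := Int.modEq_zero_iff_dvd.mpr hfirst
  have h11 : ((2 * n' : ℕ) : ℤ) * (∑ d ∈ Dig 2 0, ∑ t ∈ D (carry 2 0 d) n',
        (2 : ℤ) ^ (carry 2 0 d * m) * (W (carry 2 0 d) t.1 t.2.1 : ℤ) ^ m *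
        (((2 * t.2.2 + d.2.2 - t.2.2 : ℕ) : ℤ) *
        (((comb 2 t d).2.2 : ℤ) - (tau (comb 2 t d)).2.2))) ≡ ((2 * n' : ℕ) : ℤ)
        [ZMOD ((2 : ℤ) ^ (e' + 1 + 1))] := by
    rw [Int.modEq_iff_dvd]
    have h12 := hsecond.dvd
    have h13 : (2 : ℤ) ^ (e' + 1) ∣ ((2 * n' : ℕ) : ℤ) := by exact_mod_cast hn
    have h14 := two_pow_dvd h13 h12
    rw [mul_sub, mul_one] at h14
    exact h14
  have h15 := h10.add h11
  rw [zero_add] at h15
  exact h15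

end Pool.Agent.W_MP_97e2c3_nt
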