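import Mathlib
import Pool.Agent.W_MP_97e2c3_nt.Final

/-!
# Divisibility by `4 n`
-/

set_option autoImplicit false

namespace Pool.Agent.W_MP_97e2c3_nt

open Finset

lemma two_dvd_f {m : ℕ} (hm : Odd m) {k : ℕ} (hk : 0 < k) :
    (2 : ℤ) ∣ ∑ j ∈ range (k + 1), ((k.choose j : ℕ) : ℤ) ^ m := by
  have h1 : (∑ j ∈ range (k + 1), ((k.choose j : ℕ) : ℤ) ^ m) ≡
      ∑ j ∈ range (k + 1), ((k.choose j : ℕ) : ℤ) [ZMOD 2] := by
    rw [Int.modEq_iff_dvd, ← sum_sub_distrib]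
    apply dvd_sum
    intro j _
    exact (pow_mod_two hm _).dvd
  have h2 : ∑ j ∈ range (k + 1), ((k.choose j : ℕ) : ℤ) = 2 ^ k := by
    exact_mod_cast Nat.sum_range_choose k
  rw [h2] at h1
  exact (Int.ModEq.dvd_iff h1).mpr (dvd_pow_self _ (by omega))

lemma S_two_pow {m : ℕ} (hm : Odd m) {e n : ℕ} (he : 1 ≤ e) (hn0 : 0 < n) (hn : 2 ^ e ∣ n) :
    (2 : ℤ) ^ (e + 2) ∣ S m n := by
  rw [S_eq]
  have h1 := (LL_two hm he hn0 hn).dvd
  have h2 : (2 : ℤ) ^ e ∣ (n : ℤ) := by exact_mod_cast hn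
  have h3 := two_pow_dvd h2 (L1_odd hm hn0).symm.dvd
  have h4 : (2 : ℤ) ^ (e + 1) ∣ n * L1 m n - LL m n := by
    have : (n : ℤ) * L1 m n - LL m n = n * (L1 m n - 1) + (n - LL m n) := by ring
    rw [this]
    exact dvd_add h3 h1
  have h5 : (2 : ℤ) ^ (e + 2) ∣ 2 * (n * L1 m n - LL m n) := by
    rw [pow_succ']
    exact mul_dvd_mul_left 2 h4
  rw [mul_assoc]
  exact Dvd.dvd.mul_left h5 _

lemma four_dvd {m : ℕ} (hm : Odd m) {n : ℕ} (hn : 1 < n) : (4 : ℤ) ∣ S m n := by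
  have heven : ∀ n : ℕ, 0 < n → 2 ∣ n → (4 : ℤ) ∣ S m n := by
    intro n h0 h2
    have := S_two_pow hm (e := 1) le_rfl h0 (by simpa using h2)
    exact dvd_trans (by norm_num) this
  rcases Nat.even_or_odd n with h | h
  · exact heven n (by omega) h.two_dvd
  · obtain ⟨k, rfl⟩ : ∃ k, n = k + 1 := ⟨n - 1, by omega⟩
    have h1 : S m (k + 1) = S m k + (-1 : ℤ) ^ k * (3 * k + 2) *
        ∑ j ∈ range (k + 1), ((k.choose j : ℕ) : ℤ) ^ m := by
      unfold S
      rw [sum_range_succ]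
    rw [h1]
    have hk : Even k := by
      rw [Nat.odd_add_one] at h
      simpa using h
    apply dvd_add
    · exact heven k (by omega) hk.two_dvd
    · obtain ⟨a, ha⟩ := hk
      have h2 : (2 : ℤ) ∣ (-1 : ℤ) ^ k * (3 * k + 2) := by
        apply Dvd.dvd.mul_left
        rw [ha]
        push_cast
        exact ⟨3 * a + 1, by ring⟩
      have h3 := mul_dvd_mul h2 (two_dvd_f hm (k := k) (by omega))
      exact dvd_trans (by norm_num) h3

theorem main {m : ℕ} (hm : Odd m) {n : ℕ} (hn : 1 < n) : (4 * n : ℤ) ∣ S m n := by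
  have h0 : (4 * n : ℤ) = ((4 * n : ℕ) : ℤ) := by push_cast; ring
  rw [h0, Int.natCast_dvd, Nat.dvd_iff_prime_pow_dvd_dvd]
  intro p k hp hk
  rw [← Int.natCast_dvd]
  push_cast
  rcases eq_or_ne p 2 with rfl | hp2
  · rcases Nat.lt_or_ge 2 k with h | h
    · obtain ⟨e, rfl⟩ : ∃ e, k = e + 2 := ⟨k - 2, by omega⟩
      have h1 : 2 ^ e ∣ n := by
        rw [pow_add, mul_comm] at hk
        exact Nat.dvd_of_mul_dvd_mul_left (by norm_num) hk
      exact S_two_pow hm (by omega) (by omega) h1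
    · refine dvd_trans ?_ (four_dvd hm hn)
      have : ((2 : ℕ) : ℤ) ^ k ∣ (2 : ℤ) ^ 2 := by
        exact pow_dvd_pow _ h
      simpa using this
  · have h1 : p ^ k ∣ n := by
      have hc : Nat.Coprime (p ^ k) 4 := by
        apply Nat.Coprime.pow_left
        rw [show 4 = 2 ^ 2 by norm_num]
        apply Nat.Coprime.pow_right
        rw [Nat.coprime_primes hp Nat.prime_two]
        exact hp2
      exact hc.dvd_of_dvd_mul_left hk
    rw [S_eq]
    apply Dvd.dvd.mul_left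
    apply dvd_sub
    · apply Dvd.dvd.mul_right
      exact_mod_cast h1
    · exact LL_dvd hp hm h1

end Pool.Agent.W_MP_97e2c3_nt
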